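import Pool.Agent.H622R2.StrongDivRed
import Pool.Agent.H673R2.Search
import Pool.Agent.NPC.Sat

/-!
# Strongly 2-divisible graphs: hardness of recognition
-/

namespace Pool.Agent.H530R3

open Pool.Agent.NPC Pool.Agent.H622R2 Pool.Agent.H673R2

/-- Non-membership is hard. -/
theorem hardI_not_stronglyDivisible :
    HardI (fun M : List (List Bool) => ¬ StronglyDivisible 2 (matGraph M)) :=
  HardI.trans hardI_SAT3 sdRed_poly (fun φ => sdRed_correct φ)

/-- If the complement of a problem is hard, then it has no polynomial-time algorithm unless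
`P = NP`. -/
theorem no_algorithm {α : Type} [TEnc α] {P : α → Prop} (h : HardI (fun a => ¬ P a))
    (hne : PneNP) :
    ¬ ∃ f : List Bool → List Bool, PolyTime f ∧ ∀ a, P a ↔ f (bits a) = [true] := by
  rintro ⟨f, hf, hs⟩
  obtain ⟨L, hL, hL'⟩ := hne
  apply hL'
  obtain ⟨g, hg, hgL⟩ := h L hL
  have h1 : PolyTime (fun x => f (bits (g x))) :=
    H642R2.TMSim.polyTime_comp (g := f) (f := fun x => bits (g x)) hf (PC.toPolyTime hg)
  refine ⟨fun x => [decide (f (bits (g x)) ≠ [true])], ?_, fun x => ?_⟩
  · exact polyTime_test (g := fun y => decide (y ≠ [true])) h1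
      (Poly.decide_not (Poly.decide_eq Poly.id (NPC.Poly.const _)))
  · rw [hgL x]
    change ¬ P (g x) ↔ [decide (f (bits (g x)) ≠ [true])] = [true]
    rw [hs]
    simp

end Pool.Agent.H530R3
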